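import Pool.Agent.AT8.Stmts2
import Pool.Agent.Helper74_PP.Brt
import Pool.Agent.Helper46_PP.Blk
import Pool.Agent.Helper50_PP.Ffa

/-!
# Squad AT8, LCL: the local idempotents
-/

open scoped BigOperators

noncomputable section

namespace Pool.Agent.PP.T8.H28

open Pool.Agent.Helper51_AWC Pool.Agent.Helper79_WRA Pool.Agent.PP Pool.Agent.PP.KF
open Pool.Agent.PP.K9 Pool.Agent.PP.K9.H97 Pool.Agent.PP.H75 Pool.Agent.PP.T3 Pool.Agent.PP.T2

attribute [local instance] Ideal.Quotient.field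

section tools

variable {M : Ideal (integralClosure ℤ ℂ)} [M.IsMaximal] {G : Type} [Group G] [Finite G]

/-- values of a product -/
theorem mulF_RM {a c : G → ℂ} (ha : ∀ g, a g ∈ RM M) (hc : ∀ g, c g ∈ RM M) (g : G) :
    mulF a c g ∈ RM M := by
  have := Fintype.ofFinite G
  unfold mulF
  rw [finsum_eq_sum_of_fintype]
  exact Subring.sum_mem _ fun t _ => (RM M).mul_mem (ha t) (hc _)

/-- the reduction of a product -/
theorem rd_mulF {a c : G → ℂ} (ha : ∀ g, a g ∈ RM M) (hc : ∀ g, c g ∈ RM M) :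
    rd M (mulF a c) = mulF (rd M a) (rd M c) := by
  have := Fintype.ofFinite G
  funext x
  unfold rd mulF
  rw [finsum_eq_sum_of_fintype, finsum_eq_sum_of_fintype,
    rr_sum _ _ fun t _ => (RM M).mul_mem (ha t) (hc _)]
  exact Finset.sum_congr rfl fun t _ => rr_mul (ha t) (hc _)

/-- an idempotent with zero residue is zero -/
theorem idem_zero {p : G → ℂ} (hp : ∀ g, p g ∈ RM M) (h0 : ∀ g, rr M (p g) = 0)
    (hpp : mulF p p = p) : p = 0 := by
  classical
  have := Fintype.ofFinite G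
  let L : Matrix G G (RM M) := fun x t => ⟨p (x * t⁻¹), hp _⟩
  have hLL : L * L = L := by
    ext x t
    rw [Matrix.mul_apply]
    change (((∑ s, L x s * L s t : RM M)) : ℂ) = p (x * t⁻¹)
    rw [AddSubmonoidClass.coe_finsetSum]
    have h1 : p (x * t⁻¹) = ∑ r, p r * p (r⁻¹ * (x * t⁻¹)) := by
      conv_lhs => rw [← hpp]
      unfold mulF
      rw [finsum_eq_sum_of_fintype]
    rw [h1, ← Equiv.sum_comp ((Equiv.inv G).trans (Equiv.mulLeft x))
      (fun r => p r * p (r⁻¹ * (x * t⁻¹)))]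
    refine Finset.sum_congr rfl fun s _ => ?_
    change p (x * s⁻¹) * p (s * t⁻¹) = p (x * s⁻¹) * p ((x * s⁻¹)⁻¹ * (x * t⁻¹))
    congr 2
    group
  have hdet : rrHom M ((1 - L).det) = 1 := by
    rw [RingHom.map_det]
    have h2 : (rrHom M).mapMatrix (1 - L) = 1 := by
      ext x t
      rw [RingHom.mapMatrix_apply, Matrix.map_apply, Matrix.sub_apply, map_sub]
      have h3 : rrHom M (L x t) = 0 := h0 _
      rw [h3, sub_zero, Matrix.one_apply, Matrix.one_apply]
      by_cases hxt : x = t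
      · rw [if_pos hxt, if_pos hxt, map_one]
      · rw [if_neg hxt, if_neg hxt, map_zero]
    rw [h2, Matrix.det_one]
  have hdet0 : (1 - L).det ≠ 0 := by
    intro h
    rw [h, map_zero] at hdet
    exact zero_ne_one hdet
  have hz : (1 - L) * L = 0 := by
    rw [sub_mul, one_mul, hLL, sub_self]
  have hz2 : (1 - L).det • L = 0 := by
    rw [← one_mul L, ← smul_mul_assoc, ← Matrix.adjugate_mul, mul_assoc, one_mul, hz, mul_zero]
  funext g
  have h4 := congrFun (congrFun hz2 g) 1
  have h5 : (1 - L).det * L g 1 = 0 := h4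
  rcases mul_eq_zero.1 h5 with h6 | h6
  · exact absurd h6 hdet0
  · have h7 : p (g * 1⁻¹) = 0 := congrArg Subtype.val h6
    rw [inv_one, mul_one] at h7
    exact h7

omit [Finite G] in
theorem mem_cent_zpowers (z t : G) :
    t ∈ Subgroup.centralizer ((Subgroup.zpowers z : Subgroup G) : Set G) ↔ t ∈ Cu z := by
  rw [Subgroup.mem_centralizer_iff, Subgroup.mem_centralizer_iff]
  constructor
  · intro h y hy
    rw [Set.mem_singleton_iff] at hy
    rw [hy]
    exact h z (Subgroup.mem_zpowers z)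
  · rintro h y hy
    obtain ⟨n, rfl⟩ := Subgroup.mem_zpowers_iff.1 hy
    have h1 : Commute z t := h z rfl
    exact (h1.zpow_left n)

/-- the restriction to the centraliser of `z` as a Brauer map -/
theorem rs_eq_br {F : Type} [Field F] (z : G) (a : G → F) :
    rs (Cu z) a = br (Subgroup.zpowers z) a := by
  funext t
  unfold rs
  by_cases ht : t ∈ Cu z
  · rw [if_pos ht, br_in _ ((mem_cent_zpowers z t).2 ht)]
  · rw [if_neg ht, br_out _ fun h => ht ((mem_cent_zpowers z t).1 h)]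

theorem rs_mulF {F : Type} [Field F] {ℓ : ℕ} (hF : GoodF ℓ F) {z : G}
    (hz : IsPGroup ℓ (Subgroup.zpowers z)) {a c : G → F} (ha : ∀ x, a (z * x * z⁻¹) = a x)
    (hc : ∀ x, c (z * x * z⁻¹) = c x) :
    rs (Cu z) (mulF a c) = mulF (rs (Cu z) a) (rs (Cu z) c) := by
  have key : ∀ b : G → F, (∀ x, b (z * x * z⁻¹) = b x) → ∀ p ∈ Subgroup.zpowers z,
      cj p b = b := by
    intro b hb p hp
    have h1 : z ∈ st b := by
      rw [mem_st, cj_eq_iff]
      exact hb
    have h2 : Subgroup.zpowers z ≤ st b := Subgroup.zpowers_le.2 h1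
    exact mem_st.1 (h2 hp)
  rw [rs_eq_br, rs_eq_br, rs_eq_br]
  exact br_mulF H74.orb hF hz (key a ha) (key c hc)

end tools

theorem lcl (lft : LftStmt) (smi : SmiStmt) (idm : KF.IdmStmt) : LclStmt := by
  intro ℓ _ M _ hM G _ _ e V γ hL i hi z hz b hb
  have hF : GoodF ℓ (FF M) := H50.fld ℓ Fact.out M hM
  have hzp : IsPGroup ℓ (Subgroup.zpowers z) :=
    hL.tp.pg.to_le (Subgroup.zpowers_le.2 hz)
  have hrdz : ∀ v ∈ V, ∀ x, rd M i (v * x * v⁻¹) = rd M i x := by
    intro v hv x
    unfold rd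
    rw [hi.ip.iv v hv]
  -- the idempotent `x`
  have hxx : mulF (rs (Cu z) (rd M i)) (rs (Cu z) (rd M i)) = rs (Cu z) (rd M i) := by
    rw [← rs_mulF hF hzp (hrdz z hz) (hrdz z hz), ← rd_mulF hi.ip.rm hi.ip.rm, hi.ip.id]
  have hxs : ∀ g, g ∉ Cu z → rs (Cu z) (rd M i) g = 0 := by
    intro g hg
    unfold rs
    rw [if_neg hg]
  have hxin : ∀ g, g ∈ Cu z → rs (Cu z) (rd M i) g = rd M i g := by
    intro g hg
    unfold rs
    rw [if_pos hg]
  have hVC : ∀ v ∈ V, v ∈ Cu z := by
    intro v hv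
    rw [Subgroup.mem_centralizer_singleton_iff]
    exact hL.ab v hv z hz
  have hxv : ∀ v ∈ V, ∀ g, rs (Cu z) (rd M i) (v * g * v⁻¹) = rs (Cu z) (rd M i) g := by
    intro v hv g
    by_cases hg : g ∈ Cu z
    · have hg' : v * g * v⁻¹ ∈ Cu z :=
        Subgroup.mul_mem _ (Subgroup.mul_mem _ (hVC v hv) hg) (Subgroup.inv_mem _ (hVC v hv))
      rw [hxin _ hg, hxin _ hg', hrdz v hv]
    · have hg' : v * g * v⁻¹ ∉ Cu z := by
        intro h
        apply hg
        have h1 := Subgroup.mul_mem _ (Subgroup.mul_mem _ (Subgroup.inv_mem _ (hVC v hv)) h)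
          (hVC v hv)
        have e1 : v⁻¹ * (v * g * v⁻¹) * v = g := by group
        rwa [e1] at h1
      rw [hxs _ hg, hxs _ hg']
  obtain ⟨j, hj, hjs, hjx⟩ := lft M G V (Cu z) (rs (Cu z) (rd M i)) hxx hxs hxv
  have hjr : ∀ g ∈ Cu z, rr M (j g) = rr M (i g) := by
    intro g hg
    have h1 := congrFun hjx g
    rw [hxin g hg] at h1
    exact h1
  refine ⟨j, hj, hjs, hjr, ?_, ?_⟩
  · -- the lift of `b`
    obtain ⟨hbv, hbi, -⟩ := idm M (Cu z) (fun t : Cu z => b t) hb.blk.blk.1
    set B : G → ℂ := PP.ext0 (Cu z) (eh M (fun t : Cu z => b t)) with hB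
    have hBx : Ix (Cu z) B := by
      refine ⟨fun x hx => H46.ext0_of_not_mem _ hx, ?_⟩
      rw [hB, H46.restr_ext0]
      exact hbi
    have hBR : ∀ g, B g ∈ RM M := by
      intro g
      by_cases hg : g ∈ Cu z
      · rw [hB, H46.ext0_of_mem _ hg]
        exact (hbv _).1
      · rw [hBx.supp g hg]
        exact (RM M).zero_mem
    have hBr : rd M B = b := by
      funext g
      unfold rd
      by_cases hg : g ∈ Cu z
      · rw [hB, H46.ext0_of_mem _ hg]
        exact (hbv _).2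
      · rw [hBx.supp g hg, hb.blk.supp g hg]
        exact rr_zero
    have hcomm : mulF j B = mulF B j :=
      mulF_comm_of (K := Cu z) hjs fun k hk => hBx.inv hk
    have hJ : ma j * ma j = ma j := by rw [← ma_mul, hj.id]
    have hBB : ma B * ma B = ma B := by rw [← ma_mul, hBx.mul]
    have hC : ma B * ma j = ma j * ma B := by rw [← ma_mul, ← ma_mul, hcomm]
    have hp0 : j - mulF j B = 0 := by
      refine idem_zero (M := M) (p := j - mulF j B) ?_ ?_ ?_
      · intro g
        exact (RM M).sub_mem (hj.rm g) (mulF_RM hj.rm hBR g)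
      · intro g
        change rr M (j g - mulF j B g) = 0
        rw [rr_sub (hj.rm g) (mulF_RM hj.rm hBR g)]
        have h1 : rr M (mulF j B g) = mulF (rd M j) (rd M B) g := by
          rw [← rd_mulF hj.rm hBR]
          rfl
        have h2 : rr M (j g) = rd M j g := rfl
        rw [h1, h2, hBr, hjx, hi.lb z hz b hb, sub_self]
      · apply ma_injective
        rw [ma_mul, ma_sub, ma_mul]
        have e1 : ma j * ma B * ma j = ma j * ma B := by
          rw [mul_assoc, hC, ← mul_assoc, hJ]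
        have e2 : ma j * ma B * (ma j * ma B) = ma j * ma B := by
          rw [← mul_assoc, e1, mul_assoc, hBB]
        rw [sub_mul, mul_sub, mul_sub, hJ, e1, e2, ← mul_assoc, hJ, sub_self, sub_zero]
    have h3 : j = mulF j B := sub_eq_zero.1 hp0
    exact h3.symm
  · intro th hth
    have hE : El ℓ z := by
      obtain ⟨k, hk⟩ := hL.tp.pg ⟨z, hz⟩
      exact ⟨k, congrArg Subtype.val hk⟩
    exact smi ℓ M hM G z hE i j hi.ip.rm hi.ip.id (hi.ip.iv z hz) hj.rm hj.id hjs hjr th hth

end Pool.Agent.PP.T8.H28
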